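import Pool.Agent.Shared.RealForcing.Reals
import Pool.Agent.Lib.MP_6245c4_gt.Menger
import Pool.Agent.Shared.RealForcing.Rand
import Pool.Agent.Shared.RealForcing.Cantor

-- part Pool.Agent.Lib.MP_07d10b_lc.Ideal
section

/-! Families of functions and ideals in the quotient models of a system with one level. -/

namespace Pool.Agent.Lib.MP_07d10b_lc

open Pool.Agent.Lib.MP_2739cb_lc Pool.Agent.Shared.RealForcing Set Filter Cardinal MeasureTheory Sys

variable {Y : Type} {s : Sys Unit Y} {U : GU s.Cd}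

theorem lv (U : GU s.Cd) : lev () U := lev_k0 U

theorem exists_fn' (g : Nm s.Cd) : ∃ f, s.Ms () f ∧ ∀ U,
    IsFun (El U) (cl U g) (cl U om) (cl U om) → cl U g = cl U (s.fnNm f) :=
  let ⟨_, _, f, h1, h2⟩ := exists_fn () g; ⟨f, h1, fun U => h2 U (lv U)⟩

theorem exists_sb' (x : Nm s.Cd) : ∃ a, s.Ms () a ∧ ∀ U,
    Sub (El U) (cl U x) (cl U om) → cl U x = cl U (s.sbNm a) :=
  let ⟨_, _, f, h1, h2⟩ := exists_sb () x; ⟨f, h1, fun U => h2 U (lv U)⟩

/-- A lower bound for the size of a cofinal family. -/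
theorem not_cardLe (R : ∀ U : GU s.Cd, MU U → MU U → Prop)
    [∀ x y, Dec fun U => R U (cl U x) (cl U y)] (ι : Type)
    (H : ∀ f : ι → Y → ℕ → ℕ, (∀ i, s.Ms () (f i)) → ∃ d, s.Ms () d ∧
      ∀ i U, ¬ R U (cl U (s.fnNm (f i))) (cl U (s.fnNm d))) (F : MU U)
    (hF : (∀ f, El U f F → IsFun (El U) f (cl U om) (cl U om)) ∧
      ∀ g, IsFun (El U) g (cl U om) (cl U om) → ∃ f, El U f F ∧ R U f g) :
    ¬ CardLe (El U) F (cl U (oN (#ι).ord)) := by
  intro h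
  obtain ⟨F, rfl⟩ := cl_surj F
  obtain ⟨τ, hτ⟩ := exists_listing F (b := (#ι).ord) (ι := ι) (by simp)
  choose f h1 h2 using fun i => exists_fn' (τ i)
  obtain ⟨d, h3, h4⟩ := H f h1
  obtain ⟨z, h5, h6⟩ := hF.2 _ (isFun_fnNm (lv U) h3)
  have h7 := hF.1 z h5
  obtain ⟨z, rfl⟩ := cl_surj z
  have h8 := hτ U z h h5
  clear h5 hF h
  revert h7; revert h6
  refine Ex.elim U h8 fun U i e h6 h7 => ?_
  rw [e] at h6 h7
  exact h4 i U (h2 i U h7 ▸ h6)

/-- An upper bound for the size of a cofinal family. -/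
theorem exists_cardLe (R : ∀ U : GU s.Cd, MU U → MU U → Prop) {ι : Type} (c : ι → Y → ℕ → ℕ)
    (hc : ∀ i, s.Ms () (c i)) {κ : Cardinal.{0}} (hκ : #ι ≤ κ)
    (H : ∀ g, s.Ms () g → ∃ i, ∀ U, R U (cl U (s.fnNm (c i))) (cl U (s.fnNm g))) (U : GU s.Cd) :
    ∃ F, ((∀ f, El U f F → IsFun (El U) f (cl U om) (cl U om)) ∧
      ∀ g, IsFun (El U) g (cl U om) (cl U om) → ∃ f, El U f F ∧ R U f g) ∧
      CardLe (El U) F (cl U (oN κ.ord)) := by
  refine ⟨_, ⟨fun f hf => ?_, fun g hg => ?_⟩,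
    cardLe_setNm (fun i => s.fnNm (c i)) (fun _ _ => True) (by simpa using hκ)⟩
  · obtain ⟨f, rfl⟩ := cl_surj f
    exact wlog_set f (fun i => s.fnNm (c i)) _ U hf fun U i _ e => e ▸ isFun_fnNm (lv U) (hc i)
  · obtain ⟨g, rfl⟩ := cl_surj g
    obtain ⟨f, h1, h2⟩ := exists_fn' g
    obtain ⟨i, hi⟩ := H f h1
    exact ⟨_, el_setNm (fun i => s.fnNm (c i)) i trivial, h2 U hg ▸ hi U⟩

variable {f g : Y → ℕ → ℕ} {a b : Y → Set ℕ}

theorem leStar_of_ae (hf : s.Ms () f) (hg : s.Ms () g)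
    (h : ∀ᶠ y in s.F (), ∀ᶠ n in atTop, f y n ≤ g y n) (U : GU s.Cd) :
    LeStar (El U) (cl U om) (cl U (s.fnNm f)) (cl U (s.fnNm g)) :=
  (leStar_fnNm (lv U) hf hg).2 (ev_of_ae (lv U) h)

theorem not_leStar_of_ae (hf : s.Ms () f) (hg : s.Ms () g)
    (h : ∀ᶠ y in s.F (), ∃ᶠ n in atTop, ¬ f y n ≤ g y n) (U : GU s.Cd) :
    ¬ LeStar (El U) (cl U om) (cl U (s.fnNm f)) (cl U (s.fnNm g)) := fun h1 =>
  let ⟨_, h2, h3⟩ := (((leStar_fnNm (lv U) hf hg).1 h1).and (ev_of_ae (lv U) h)).exists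
  h3 (h2.mono fun _ => not_not.2)

theorem ev_all {ι : Type} [Countable ι] {E : ι → Y → Prop} (hE : ∀ i, s.Ms () (E i))
    (Ψ : GU s.Cd → Prop) [Dec Ψ] (H : ∀ U i, Ψ U → ev (E i) U) (h : Ψ U) :
    ev (fun y => ∀ i, E i y) U := by
  by_contra hn
  revert h
  exact wlog_not_all U (lv U) hE hn fun U i _ hi h => hi (H U i h)

theorem sub_sbNm (ha : s.Ms () a) (hb : s.Ms () b)
    (h : Sub (El U) (cl U (s.sbNm a)) (cl U (s.sbNm b))) : ev (fun y => a y ⊆ b y) U := by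
  let := s.m ()
  exact ev_all (E := fun n y => n ∈ a y → n ∈ b y) (fun n => show Measurable _ by fun_prop)
    (fun U => Sub (El U) (cl U (s.sbNm a)) (cl U (s.sbNm b))) (fun U n h => ev_imp (lv U) (show Measurable _ by fun_prop) fun h1 =>
      el_sbNm.1 (h _ (el_sbNm.2 h1))) h

/-- The name of the family of sets given by the members of `T`. -/
noncomputable def idl (s : Sys Unit Y) (T : Set (Y → Set ℕ)) : Nm s.Cd :=
  setNm (fun a : T => s.sbNm a.1) fun _ _ => True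

variable {T : Set (Y → Set ℕ)}

theorem el_idl (ha : a ∈ T) : El U (cl U (s.sbNm a)) (cl U (idl s T)) :=
  el_setNm (fun a : T => s.sbNm a.1) ⟨a, ha⟩ trivial

@[elab_as_elim]
theorem wlog_idl {Φ : GU s.Cd → Prop} (z : Nm s.Cd) (T : Set (Y → Set ℕ)) (U : GU s.Cd)
    (h : El U (cl U z) (cl U (idl s T))) [Dec Φ]
    (H : ∀ U a, a ∈ T → cl U z = cl U (s.sbNm a) → Φ U) : Φ U :=
  wlog_set z (fun a : T => s.sbNm a.1) (fun _ _ => True) U h fun U a _ => H U a.1 a.2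

theorem exists_of_el_idl (hT : ∀ a ∈ T, s.Ms () a) (hb : s.Ms () b) {Z : Set ℕ}
    (hZ : ∀ a ∈ T, ∀ᶠ y in s.F (), ¬ Z ⊆ a y) {c : Y → Set ℕ} (hc : c ∈ T)
    (hu : ∀ a ∈ T, ∀ b ∈ T, (fun y => a y ∪ b y) ∈ T) (hcov : ∀ y, Z ⊆ b y ∪ c y) :
    ¬ El U (cl U (s.sbNm b)) (cl U (idl s T)) := by
  intro h
  refine wlog_idl _ T U h fun U a ha e => ?_
  obtain ⟨y, h1, h2⟩ := ((sub_sbNm hb (hT a ha) (e ▸ fun _ h => h)).and
    (ev_of_ae (lv U) (hZ _ (hu a ha c hc)))).exists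
  exact h2 ((hcov y).trans (union_subset_union_left _ h1))

theorem isIdeal_idl (hT : ∀ a ∈ T, s.Ms () a)
    (hi : ∀ a ∈ T, ∀ b, s.Ms () b → (fun y => b y ∩ a y) ∈ T)
    (hu : ∀ a ∈ T, ∀ b ∈ T, (fun y => a y ∪ b y) ∈ T) (hf : ∀ n, (fun _ => Iic n) ∈ T)
    (hZ : ∀ a ∈ T, ∀ᶠ y in s.F (), ¬ Set.univ ⊆ a y) (U : GU s.Cd) :
    IsIdeal (El U) (cl U om) (cl U (idl s T)) := by
  have hsub : ∀ (U : GU s.Cd) x z, El U x (cl U (idl s T)) → Sub (El U) z x →
      El U z (cl U (idl s T)) := by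
    intro U x z hx hz
    obtain ⟨x, rfl⟩ := cl_surj x
    obtain ⟨z, rfl⟩ := cl_surj z
    revert hz
    refine wlog_idl x T U hx fun U a ha e hz => ?_
    rw [e] at hz
    obtain ⟨b, hb, h⟩ := exists_sb' z
    have e' := h U fun t ht => sbNm_sub t (hz t ht)
    rw [e'] at hz ⊢
    rw [sbNm_congr ((sub_sbNm hb (hT a ha) hz).imp fun y hy => (inter_eq_left.2 hy).symm)]
    exact el_idl (hi a ha b hb)
  refine ⟨fun x hx => ?_, fun h => ?_, fun x h1 h2 => ?_, hsub U, fun x z c hx hz h => ?_⟩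
  · obtain ⟨x, rfl⟩ := cl_surj x
    exact wlog_idl x T U hx fun U a _ e => e ▸ sbNm_sub
  · exact exists_of_el_idl (b := fun _ => Set.univ) hT measurable_const hZ (hf 0) hu
      (fun _ => subset_union_left) (hsub U _ _ h sbNm_sub)
  · obtain ⟨x, rfl⟩ := cl_surj x
    refine Ex.elim U (MP_6245c4_gt.ex_sub_of_finite nn (fun _ _ => True) id x h2 fun z hz => ?_)
      fun U m hm => hsub U _ _ (el_idl (hf m)) fun z hz => ?_
    · have h3 := h1 z hz
      obtain ⟨z, rfl⟩ := cl_surj z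
      exact wlog_nat z U h3 fun U n e => e ▸ el_setNm nn n trivial
    · have h3 := hm z hz
      obtain ⟨z, rfl⟩ := cl_surj z
      exact wlog_set z nn _ U h3 fun U n hn e => e ▸ el_sbNm.2 (ev_true U fun _ => hn.1)
  · obtain ⟨x, rfl⟩ := cl_surj x
    obtain ⟨z, rfl⟩ := cl_surj z
    obtain ⟨c, rfl⟩ := cl_surj c
    revert h; revert hz
    refine wlog_idl x T U hx fun U a ha e hz h => ?_
    revert h; revert e
    refine wlog_idl z T U hz fun U b hb e' e h => ?_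
    rw [e, e'] at h
    refine hsub U _ _ (el_idl (hu a ha b hb)) fun t ht => ?_
    obtain ⟨t, rfl⟩ := cl_surj t
    rcases (h _).1 ht with h1 | h1
    · exact wlog_sb t a U h1 fun U n hn e => e ▸ el_sbNm.2 (hn.imp fun _ => Or.inl)
    · exact wlog_sb t b U h1 fun U n hn e => e ▸ el_sbNm.2 (hn.imp fun _ => Or.inr)

theorem leMod_fnNm (hf : s.Ms () f) (hg : s.Ms () g) {J : MU U} :
    LeMod (El U) J (cl U (s.fnNm f)) (cl U (s.fnNm g)) ↔
      El U (cl U (s.sbNm fun y => {n | g y n < f y n})) J := by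
  have key : ∀ n, El U n (cl U (s.sbNm fun y => {n | g y n < f y n})) ↔
      ∃ u v, App (El U) (cl U (s.fnNm f)) n u ∧ App (El U) (cl U (s.fnNm g)) n v ∧ El U v u := by
    intro n
    obtain ⟨n, rfl⟩ := cl_surj n
    let := s.m ()
    constructor
    · intro h
      refine wlog_sb n _ U h fun U m hm e => ?_
      revert hm; revert e
      refine wlog_val (fun y => (f y m, g y m)) U (lv U) (show Measurable _ by fun_prop)
        fun U x _ h1 e hm => ⟨_, _, e ▸ app_fnNm.2 (h1.imp fun _ => congrArg Prod.fst),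
          e ▸ app_fnNm.2 (h1.imp fun _ => congrArg Prod.snd), el_nn.2 ?_⟩
      obtain ⟨y, rfl, h2⟩ := (h1.and hm).exists
      exact h2
    · rintro ⟨u, v, h1, h2, h3⟩
      obtain ⟨u, rfl⟩ := cl_surj u
      obtain ⟨v, rfl⟩ := cl_surj v
      revert h3; revert h2
      refine wlog_fn n u f U h1 fun U i j h4 e1 e2 h2 h3 => ?_
      revert h3; revert e2; revert e1; revert h4
      refine wlog_fn n v g U h2 fun U i' j' h5 e3 e4 h4 e1 e2 h3 => ?_
      obtain rfl := nn_inj (e1.symm.trans e3)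
      rw [e2, e4, el_nn] at h3
      rw [e1]
      exact el_sbNm.2 ((h4.and h5).imp fun y hy => show g y i < f y i from hy.1 ▸ hy.2 ▸ h3)
  exact ⟨fun ⟨x, h1, h2⟩ => MU_ext x _ (fun n => (h2 n).trans (key n).symm) ▸ h1,
    fun h => ⟨_, h, key⟩⟩

end Pool.Agent.Lib.MP_07d10b_lc
end

-- part Pool.Agent.Lib.MP_07d10b_lc.Null
section

/-! After adding many random reals, few null sets do not cover the Cantor space. -/

namespace Pool.Agent.Lib.MP_07d10b_lc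

open Pool.Agent.Lib.MP_2739cb_lc Pool.Agent.Shared.RealForcing Set Filter Cardinal MeasureTheory Sys

theorem ae_not_covered (b : ℕ × ℕ × Finset ℕ → Prop) : ∀ᵐ t ∂nu,
    (∀ x : ℕ × ℕ × Finset (Finset ℕ), (∀ s, s ∈ x.2.2 → s ⊆ Finset.range x.2.1 ∧
      ∃ m u, m ≤ x.2.1 ∧ b (x.1, m, u) ∧ ∀ k, k < m → (k ∈ s ↔ k ∈ u)) →
        x.2.2.card ≤ 2 ^ (x.2.1 - x.1)) →
    ¬ ∀ n, ∃ m u, b (n, m, u) ∧ ∀ k, k < m → (t k = true ↔ k ∈ u) := by
  classical
  by_cases H : ∀ x : ℕ × ℕ × Finset (Finset ℕ), (∀ s, s ∈ x.2.2 → s ⊆ Finset.range x.2.1 ∧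
      ∃ m u, m ≤ x.2.1 ∧ b (x.1, m, u) ∧ ∀ k, k < m → (k ∈ s ↔ k ∈ u)) →
        x.2.2.card ≤ 2 ^ (x.2.1 - x.1)
  swap
  · exact Eventually.of_forall fun _ h => absurd h H
  let S : ℕ → ℕ → Set (ℕ → Bool) := fun n M =>
    {t | ∃ m u, m ≤ n + M ∧ b (n, m, u) ∧ ∀ k, k < m → (t k = true ↔ k ∈ u)}
  have h1 : ∀ n M, nu (S n M) ≤ 2⁻¹ ^ n := by
    intro n M
    let T := (Finset.range (n + M)).powerset.filter fun s =>
      ∃ m u, m ≤ n + M ∧ b (n, m, u) ∧ ∀ k, k < m → (k ∈ s ↔ k ∈ u)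
    have h2 : T.card ≤ 2 ^ M := by
      simpa using H (n, n + M, T) fun s hs =>
        ⟨Finset.mem_powerset.1 (Finset.mem_filter.1 hs).1, (Finset.mem_filter.1 hs).2⟩
    have h3 : S n M ⊆ ⋃ s ∈ T, {t | ∀ i ∈ Finset.range (n + M), t i = decide (i ∈ s)} := by
      rintro t ⟨m, u, h4, h5, h6⟩
      refine mem_biUnion (x := (Finset.range (n + M)).filter fun i => t i = true)
        (Finset.mem_filter.2 ⟨Finset.mem_powerset.2 (Finset.filter_subset _ _), m, u, h4, h5,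
          fun k hk => ?_⟩) fun i hi => ?_
      · rw [← h6 k hk]; simp [hk.trans_le h4]
      · simp [hi]
    refine (measure_mono h3).trans ((measure_biUnion_finset_le _ _).trans ?_)
    simp only [nu_cyl, Finset.card_range, Finset.sum_const, nsmul_eq_mul]
    calc (T.card : ENNReal) * 2⁻¹ ^ (n + M) ≤ 2 ^ M * 2⁻¹ ^ (n + M) := by
          gcongr; exact_mod_cast h2
      _ = 2⁻¹ ^ n := by
          rw [pow_add, mul_left_comm, ← mul_pow, ENNReal.mul_inv_cancel (by simp) (by simp)]; simp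
  have h2 : ∀ n, nu (⋃ M, S n M) ≤ 2⁻¹ ^ n := fun n => by
    have h3 : Monotone (S n) := fun M M' h t ⟨m, u, h3, h4⟩ => ⟨m, u, by omega, h4⟩
    rw [h3.measure_iUnion]
    exact iSup_le (h1 n)
  refine ae_iff.2 (null_of_le fun n => (measure_mono fun t ht => ?_).trans (h2 n))
  simp only [mem_ofPred_eq, Classical.not_imp, not_not] at ht
  obtain ⟨m, u, h3⟩ := ht.2 n
  exact mem_iUnion.2 ⟨m, m, u, by omega, h3⟩

theorem ae_ne (b : Set ℕ) : ∀ᵐ t ∂nu, ¬ ∀ k, t k = true ↔ k ∈ b := by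
  classical
  refine ae_iff.2 (null_of_le fun n => ?_)
  have := nu_cyl (Finset.range n) fun k => decide (k ∈ b)
  rw [Finset.card_range] at this
  refine (measure_mono fun t ht i _ => ?_).trans this.le
  simp [← not_not.1 ht i]

variable {X I : Type} {s : Sys Unit X}

/-- The random real at a coordinate. -/
def rr (ζ : I) (y : X × Om I) : Set ℕ := {k | y.2 ζ k = true}

theorem ms_rr (ζ : I) : (s.rand I).Ms () (rr ζ) := by
  let := s.m ()
  exact measurable_set_iff.2 fun k => show Measurable fun y : X × Om I => y.2 ζ k = true by fun_prop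

theorem exists_fresh {ι : Type} {T : ι → Set I} (hT : ∀ i, (T i).Countable) {A : Set I}
    (h : #ι < #A) (h' : ℵ₀ < #A) : ∃ ζ ∈ A, ∀ i, ζ ∉ T i := by
  by_contra hc
  push Not at hc
  have h1 : #A ≤ #(⋃ i, T i) := mk_le_mk_of_subset fun ζ hζ => mem_iUnion.2 (hc ζ hζ)
  exact absurd (h1.trans ((mk_iUnion_le _).trans (mul_le_mul' le_rfl
    (ciSup_le' fun i => (hT i).le_aleph0)))) (not_le.2 (mul_lt_of_lt h'.le h h'))

theorem exists_uncountable {κ : Cardinal.{0}} (h : ℵ₀ < κ) (h' : κ ≤ #I) (U : GU (s.rand I).Cd) :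
    ∃ F, ¬ CardLe (El U) F (cl U om) ∧ CardLe (El U) F (cl U (oN κ.ord)) := by
  obtain ⟨A, hA⟩ := le_mk_iff_exists_set.1 h'
  let B : A → Nm (s.rand I).Cd := fun ζ => (s.rand I).sbNm (rr ζ.1)
  refine ⟨_, fun hc => ?_, cardLe_setNm B (fun _ _ => True) (by simp [hA])⟩
  obtain ⟨τ, hτ⟩ := exists_listing (setNm B fun _ _ => True) (b := Ordinal.omega0) (ι := ℕ) (by simp)
  choose a h1 h2 using fun i => exists_sb' (τ i)
  choose T h3 h4 using fun i => @exists_depOn_set _ _ (s.m ()) (a i) (h1 i)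
  obtain ⟨ζ, h5, h6⟩ := exists_fresh h3 (A := A) (by simpa [hA] using h) (hA ▸ h)
  refine Ex.elim U (hτ U _ hc (el_setNm B ⟨ζ, h5⟩ trivial)) fun U i e => ?_
  have e' := e.trans (h2 i U (e ▸ sbNm_sub))
  obtain ⟨y, h7, h8, h9⟩ := ((sub_sbNm (ms_rr ζ) (h1 i) (e' ▸ fun _ h => h)).and
    ((sub_sbNm (h1 i) (ms_rr ζ) (e' ▸ fun _ h => h)).and (ev_fresh (lv U) (h1 i) (h4 i) (h6 i)
      (Q := fun x => ¬ ∀ k, x.2 k = true ↔ k ∈ x.1) (by fun_prop) ae_ne))).exists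
  exact h9 fun k => ⟨fun h => h7 h, fun h => h8 h⟩

theorem not_nullCover {κ : Cardinal.{0}} (h : κ < #I) (h' : ℵ₀ < #I) (U : GU (s.rand I).Cd)
    (F : MU U) (hF : NullCover (El U) (cl U om) F) : ¬ CardLe (El U) F (cl U (oN κ.ord)) := by
  intro hc
  let := s.m ()
  obtain ⟨F, rfl⟩ := cl_surj F
  obtain ⟨τ, hτ⟩ := exists_listing F (b := κ.ord) (ι := κ.out) (by simp)
  choose O hO using fun i n => exists_witness fun U O => OpenSet (El U) (cl U om) O ∧
    MeasureLe (El U) (cl U om) O (cl U (nn n)) ∧ Sub (El U) (cl U (τ i)) O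
  choose _ _ E h1 h2 using fun i => capture (fun (x : ℕ × ℕ × Finset ℕ) U =>
    CylSub (El U) (cl U om) (cl U (nn x.2.1)) (cl U (fs x.2.2)) (cl U (O i x.1))) ()
  choose T h3 h4 using fun i => exists_depOn (E := E i) (h1 i)
  obtain ⟨ζ, -, h5⟩ := exists_fresh h3 (A := Set.univ) (by simpa using h) (by simpa using h')
  obtain ⟨N, h6, h7⟩ := hF.2 _ (sbNm_sub (a := rr ζ))
  have h8 := hF.1 N h6
  obtain ⟨N, rfl⟩ := cl_surj N
  have h9 := hτ U N hc h6
  clear h6 hF hc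
  revert h8; revert h7
  refine Ex.elim U h9 fun U i e h7 h8 => ?_
  rw [e] at h7 h8
  have hE : ∀ x, Measurable (E i x) := h1 i
  have h10 := ev_all (U := U) (E := fun (x : ℕ × ℕ × Finset (Finset ℕ)) y =>
      (∀ s, s ∈ x.2.2 → s ⊆ Finset.range x.2.1 ∧
        ∃ m u, m ≤ x.2.1 ∧ E i (x.1, m, u) y ∧ ∀ k, k < m → (k ∈ s ↔ k ∈ u)) →
          x.2.2.card ≤ 2 ^ (x.2.1 - x.1))
    (fun x => show Measurable _ by fun_prop)
    (fun U => NullSet (El U) (cl U om) (cl U (τ i))) (fun U x h => ev_imp (lv U)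
      (show Measurable _ by fun_prop) fun hx => ev_true U fun _ =>
        card_le_of_measureLe (hO i x.1 U (h _ (el_nn_om _))).2.1 _ fun t ht =>
          ⟨ev_const (hx.imp fun _ h => (h t ht).1), ev_elim (E := fun (z : ℕ × Finset ℕ) y =>
            z.1 ≤ x.2.1 ∧ E i (x.1, z.1, z.2) y ∧ ∀ k, k < z.1 → (k ∈ t ↔ k ∈ z.2)) U (lv U)
            (fun z => show Measurable _ by fun_prop)
            (hx.imp fun _ h => let ⟨m, u, h⟩ := (h t ht).2; ⟨(m, u), h⟩) fun U z _ hz =>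
              ((h2 i _ U (lv U)).2 (hz.imp fun _ h => h.2.1)).mono
                (sub_on (by exact_mod_cast ev_const (hz.imp fun _ h => h.1)))
                (forall_el_nn.2 fun k hk => by
                  rw [el_fs, el_fs]; exact ev_const (hz.imp fun _ h => h.2.2 k hk))⟩) h8
  have h11 := ev_all (U := U) (E := fun n y => ∃ m u, E i (n, m, u) y ∧
      ∀ k, k < m → (y.2 ζ k = true ↔ k ∈ u)) (fun x => show Measurable _ by fun_prop)
    (fun U => NullSet (El U) (cl U om) (cl U (τ i)) ∧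
      El U (cl U ((s.rand I).sbNm (rr ζ))) (cl U (τ i))) (fun U n h => by
      classical
      obtain ⟨h11, -, h12⟩ := hO i n U (h.1 _ (el_nn_om _))
      obtain ⟨-, m, h13, h14⟩ := h11 _ (h12 _ h.2)
      obtain ⟨m, rfl⟩ := cl_surj m
      clear h11 h12 h
      revert h14
      refine wlog_nat m U h13 fun U M e h14 => ?_
      rw [e] at h14
      let u := (Finset.range M).filter fun k =>
        El U (cl U (nn k)) (cl U ((s.rand I).sbNm (rr ζ)))
      have h15 := (h2 i (n, M, u) U (lv U)).1 (h14.mono (fun _ h => h)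
        (forall_el_nn.2 fun k hk => by rw [el_fs]; simp [u, hk]))
      have h16 : ∀ k : Fin M, ev (fun y => y.2 ζ k = true ↔ k.1 ∈ u) U := fun k => by
        by_cases hk : k.1 ∈ u
        · exact (el_sbNm.1 (Finset.mem_filter.1 hk).2).imp fun y hy => iff_of_true hy hk
        · refine ((ev_not (E := fun y => y.2 ζ k = true) (lv U) (show Measurable _ by fun_prop)).2
            fun h => hk ?_).imp fun y hy => iff_of_false hy hk
          exact Finset.mem_filter.2 ⟨Finset.mem_range.2 k.2, el_sbNm.2 h⟩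
      exact (h15.and (ev_finite h16)).imp fun y hy => ⟨M, u, hy.1, fun k hk => hy.2 ⟨k, hk⟩⟩)
    ⟨h8, h7⟩
  obtain ⟨y, h12, h13, h14⟩ := (h10.and (h11.and (ev_fresh (lv U) (f := fun y x => E i x y)
    (measurable_pi_lambda _ hE) (h4 i) (h5 i) (Q := fun z =>
      (∀ x : ℕ × ℕ × Finset (Finset ℕ), (∀ s, s ∈ x.2.2 → s ⊆ Finset.range x.2.1 ∧
        ∃ m u, m ≤ x.2.1 ∧ z.1 (x.1, m, u) ∧ ∀ k, k < m → (k ∈ s ↔ k ∈ u)) →
          x.2.2.card ≤ 2 ^ (x.2.1 - x.1)) →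
      ¬ ∀ n, ∃ m u, z.1 (n, m, u) ∧ ∀ k, k < m → (z.2 k = true ↔ k ∈ u))
    (by fun_prop) ae_not_covered))).exists
  exact h14 h12 h13

end Pool.Agent.Lib.MP_07d10b_lc
end
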