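import Pool.Agent.Lib.MP_07d10b_lc.Tmpl
import Pool.Agent.Shared.RealForcing.Rand

/-! The iteration followed by random forcing, and the ideal of sets that is made along a
well-ordered sequence of Cohen functions. -/

namespace Pool.Agent.Lib.MP_07d10b_lc

open Pool.Agent.Shared.RealForcing Set Filter Cardinal MeasureTheory Lam Sys

noncomputable def sys0 (L J : Type) : Sys Unit (X L J) where
  k0 := ()
  k0_le _ := le_rfl
  m _ := Sig J univ
  F _ := FX L J
  m_mono _ _ _ := le_rfl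
  F_anti _ _ _ := le_rfl
  sigma _ := inferInstance
  neBot := inferInstance
  refl _ _ _ _ _ h := h
  ccc _ := ccc_GF _ _
  ub _ _ _ _ _ := ⟨(), fun _ => le_rfl⟩

noncomputable abbrev sys (L J I : Type) : Sys Unit (X L J × Om I) := (sys0 L J).rand I

variable {L J I W : Type}

theorem exists_bdd {f : X L J × Om I → ℕ → ℕ} (hf : (sys L J I).Ms () f) :
    ∃ g : X L J → ℕ → ℕ, Ms univ g ∧
      ∀ᶠ y in (sys L J I).F (), ∀ᶠ n in atTop, f y n ≤ g y.1 n := by
  obtain ⟨g, h1, h2⟩ := @exists_bound _ (Sig J univ) _ _ (mu I) _ f hf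
  exact ⟨g, h1, rand_ev.2 (Eventually.of_forall h2)⟩

theorem exists_dom' [Infinite J] [Nonempty L] {f : J → X L J × Om I → ℕ → ℕ}
    (hf : ∀ i, (sys L J I).Ms () (f i)) :
    ∃ d : X L J × Om I → ℕ → ℕ, (sys L J I).Ms () d ∧
      ∀ i, ∀ᶠ y in (sys L J I).F (), ∀ᶠ n in atTop, f i y n ≤ d y n := by
  choose g h1 h2 using fun i => exists_bdd (hf i)
  obtain ⟨d, h3, h4⟩ := exists_dom h1
  refine ⟨fun y => d y.1, Ms.fst (s := sys0 L J) h3, fun i => ?_⟩
  filter_upwards [h2 i, rand_fst (s := sys0 L J) (I := I) (k := ()) (h4 i)] with y h5 h6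
  exact (h5.and h6).mono fun n h => h.1.trans h.2

/-- The Cohen function at a leaf. -/
noncomputable def cf (J I : Type) (ξ : L) (y : X L J × Om I) : ℕ → ℕ := gen (coh ξ) y.1

theorem ms_cf (ξ : L) : (sys L J I).Ms () (cf J I ξ) :=
  Ms.fst (s := sys0 L J) (ms_gen (mem_univ _))

variable [LinearOrder W] (e : W ↪ L)

/-- The coordinates that do not depend on the leaves `e η` with `ξ ≤ η`. -/
def Lo (J : Type) (ξ : W) : Set (Lam L J) := up J (e '' Ici ξ)ᶜ

theorem Lo_mono {ξ η : W} (h : ξ ≤ η) : Lo e J ξ ⊆ Lo e J η :=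
  up_mono (compl_subset_compl.2 (image_mono (Ici_subset_Ici.2 h)))

theorem coh_mem_Lo {ξ η : W} (h : ξ < η) : coh (e ξ) ∈ Lo e J η :=
  coh_mem_up.2 fun ⟨_, h1, h2⟩ => absurd (e.injective h2 ▸ h1) (not_le.2 h)

theorem frequently_lt {Y : ℕ → Prop} (hY : ∃ᶠ n in atTop, Y n) {f : W → X L J → ℕ → ℕ}
    (hf : ∀ ξ, Ms (Lo e J ξ) (f ξ)) (t : Finset W) :
    ∀ᶠ G in FX L J, ∃ᶠ n in atTop, Y n ∧ ∀ ξ ∈ t, f ξ G n < gen (coh (e ξ)) G n := by
  induction t using Finset.induction_on_max with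
  | empty => exact Eventually.of_forall fun G => by simpa using hY
  | insert a t ha ih =>
    refine (coh_unbounded (S := (e '' Ici a)ᶜ) (ξ := e a) (fun h => h ⟨a, le_rfl, rfl⟩)
      (fun i => ?_) ih (hf a)).mono fun G hG => hG.mono fun n hn => ⟨hn.1.1, ?_⟩
    · have : (fun G => Y i ∧ ∀ ξ ∈ t, f ξ G i < gen (coh (e ξ)) G i) =
          fun G => Y i ∧ ∀ ξ : t, f ξ G i < gen (coh (e ξ)) G i := by
        funext G; simp
      rw [this]
      refine (Ms.const _).and (Ms.all fun ξ => ?_)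
      have h1 := (hf ξ).mono' (Lo_mono e (ha ξ ξ.2).le)
      have h2 := ms_gen (J := J) (coh_mem_Lo (J := J) e (ha ξ ξ.2))
      let := Sig J (Lo e J a)
      exact show Measurable _ by fun_prop
    · simpa using ⟨hn.2, hn.1.2⟩

/-- The set `a` is almost covered by finitely many sets on which a Cohen function is bounded by a
function that does not depend on it. -/
def Small (a : X L J × Om I → Set ℕ) : Prop :=
  ∃ (t : Finset W) (f : W → X L J → ℕ → ℕ), (∀ ξ, Ms (Lo e J ξ) (f ξ)) ∧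
    ∀ᶠ y in (sys L J I).F (), ∀ᶠ n in atTop, n ∈ a y → ∃ ξ ∈ t, cf J I (e ξ) y n ≤ f ξ y.1 n

variable {e} {a b : X L J × Om I → Set ℕ}

theorem Small.mono (h : Small e a) (h' : ∀ y, ∀ᶠ n in atTop, n ∈ b y → n ∈ a y) : Small e b :=
  let ⟨t, f, h1, h2⟩ := h
  ⟨t, f, h1, h2.mono fun y hy => (hy.and (h' y)).mono fun _ h3 h4 => h3.1 (h3.2 h4)⟩

theorem small_empty : Small e fun _ : X L J × Om I => ∅ :=
  ⟨∅, fun _ _ _ => 0, fun _ => Ms.const _, Eventually.of_forall fun _ =>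
    Eventually.of_forall fun _ h => h.elim⟩

theorem Small.union (h : Small e a) (h' : Small e b) : Small e fun y => a y ∪ b y := by
  classical
  obtain ⟨t, f, h1, h2⟩ := h
  obtain ⟨t', f', h3, h4⟩ := h'
  refine ⟨t ∪ t', fun ξ G n => max (f ξ G n) (f' ξ G n), fun ξ => ?_,
    (h2.and h4).mono fun y hy => (hy.1.and hy.2).mono ?_⟩
  · have h5 := h1 ξ
    have h6 := h3 ξ
    let := Sig J (Lo e J ξ)
    exact show Measurable _ by fun_prop
  · rintro n ⟨h5, h6⟩ (h | h)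
    · obtain ⟨ξ, h7, h8⟩ := h5 h
      exact ⟨ξ, Finset.mem_union_left _ h7, le_max_of_le_left h8⟩
    · obtain ⟨ξ, h7, h8⟩ := h6 h
      exact ⟨ξ, Finset.mem_union_right _ h7, le_max_of_le_right h8⟩

theorem Small.frequently (h : Small e a) {Y : ℕ → Prop} (hY : ∃ᶠ n in atTop, Y n) :
    ∀ᶠ y in (sys L J I).F (), ∃ᶠ n in atTop, Y n ∧ n ∉ a y := by
  obtain ⟨t, f, h1, h2⟩ := h
  filter_upwards [h2, rand_fst (s := sys0 L J) (I := I) (k := ()) (frequently_lt e hY h1 t)]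
    with y h3 h4
  refine (h4.and_eventually h3).mono fun n hn => ⟨hn.1.1, fun h5 => ?_⟩
  obtain ⟨ξ, h6, h7⟩ := hn.2 h5
  exact absurd (hn.1.2 ξ h6) (not_lt.2 h7)

theorem exists_small [Infinite J] [Reg W] (e : W ↪ L) (hJ : #J < #W) {ι : Type} (hι : #ι < #W)
    {f : ι → X L J × Om I → ℕ → ℕ} (hf : ∀ i, (sys L J I).Ms () (f i)) :
    ∃ ξ, ∀ i, Small e fun y => {n | cf J I (e ξ) y n ≤ f i y n} := by
  classical
  choose g h1 h2 using fun i => exists_bdd (hf i)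
  obtain ⟨S, h3, h4⟩ := exists_leaves h1
  obtain ⟨ξ, hξ⟩ := Reg.bdd (I := e ⁻¹' S) ((mk_preimage_of_injective _ _ e.injective).trans_lt
    (h3.trans_lt (max_lt hι hJ))) Subtype.val
  refine ⟨ξ, fun i => ⟨{ξ}, fun η => if η = ξ then g i else fun _ _ => 0, fun η => ?_,
    (h2 i).mono fun y hy => hy.mono fun n h5 h6 => ⟨ξ, Finset.mem_singleton_self _, ?_⟩⟩⟩
  · beta_reduce
    split_ifs with h
    · refine (h4 i).mono' (up_mono ?_)
      rintro _ hz ⟨z, h5, rfl⟩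
      exact absurd (hξ ⟨z, hz⟩) (not_lt.2 (h ▸ h5))
    · exact Ms.const _
  · simpa using le_trans h6 h5

end Pool.Agent.Lib.MP_07d10b_lc
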