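import Pool.Agent.Shared.RealForcing.Obj

/-! A finite support iteration along a well-founded tree of coordinates: Cohen functions at the
leaves, and at each inner node a function dominating `#J` many functions added below it. -/

namespace Pool.Agent.Lib.MP_07d10b_lc

open Pool.Agent.Shared.RealForcing Set Filter Cardinal Cond

inductive Lam (L J : Type) : Type
  | coh : L → Lam L J
  | node : (J → Lam L J) → (J → ℕ → ℕ → Set ((J → List ℕ) × (J → Finset J))) → Lam L J

variable {L J : Type}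

namespace Lam

/-- The coordinates below `a`. -/
def sub : Lam L J → Set (Lam L J)
  | coh ξ => {coh ξ}
  | node ch lab => insert (node ch lab) (⋃ x, sub (ch x))

theorem mem_sub : ∀ a : Lam L J, a ∈ sub a
  | coh _ => rfl
  | node _ _ => mem_insert _ _

theorem sub_trans : ∀ (a : Lam L J), ∀ b ∈ sub a, sub b ⊆ sub a
  | coh _, b, hb => by rw [mem_singleton_iff.1 hb]
  | node ch lab, b, hb => by
    rcases hb with rfl | hb
    · exact Subset.rfl
    · obtain ⟨x, hx⟩ := mem_iUnion.1 hb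
      exact (sub_trans (ch x) b hx).trans
        ((subset_iUnion (fun x => sub (ch x)) x).trans (subset_insert _ _))

theorem mk_sub [Infinite J] : ∀ a : Lam L J, #(sub a) ≤ #J
  | coh _ => by simpa [sub] using one_le_aleph0.trans (aleph0_le_mk J)
  | node ch lab => by
    refine mk_insert_le.trans ((add_le_add ((mk_iUnion_le _).trans ?_)
      (one_le_aleph0.trans (aleph0_le_mk J))).trans (add_eq_self (aleph0_le_mk J)).le)
    exact (mul_le_mul' le_rfl (ciSup_le' fun x => mk_sub (ch x))).trans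
      (mul_eq_self (aleph0_le_mk J)).le

theorem node_ne : ∀ (a : Lam L J) ch lab x, a = node ch lab → ch x ≠ a := by
  intro a
  induction a with
  | coh ξ => intro _ _ _ h; cases h
  | node ch lab ih =>
    intro ch' lab' x h e
    cases h
    exact ih x ch lab x e rfl

end Lam

open Lam

def dat (L J : Type) : Data (Lam L J) J
  | .coh _ => fun _ _ _ => {top}
  | .node ch lab => fun j i v =>
    {r | r.In (range ch) ∧ (fun x => r.s (ch x), fun x => r.F (ch x)) ∈ lab j i v}

theorem closed_of_sub {A : Set (Lam L J)} (h : ∀ a ∈ A, sub a ⊆ A) : Closed (dat L J) A := by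
  rintro (ξ | ⟨ch, lab⟩) ha j i v r hr
  · rw [mem_singleton_iff.1 hr]; exact top_in A
  · refine hr.1.mono ?_
    rintro _ ⟨x, rfl⟩
    exact h _ ha (Or.inr (mem_iUnion.2 ⟨x, mem_sub _⟩))

/-- The coordinates that only depend on the leaves in `S`. -/
def up (J : Type) (S : Set L) : Set (Lam L J) := {a | ∀ ξ, coh ξ ∈ sub a → ξ ∈ S}

theorem closed_up (S : Set L) : Closed (dat L J) (up J S) :=
  closed_of_sub fun a ha b hb ξ h => ha ξ (sub_trans a b hb h)

theorem up_mono {S S' : Set L} (h : S ⊆ S') : up J S ⊆ up J S' := fun _ ha ξ h' => h (ha ξ h')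

theorem coh_mem_up {S : Set L} {ξ : L} : coh ξ ∈ up J S ↔ ξ ∈ S :=
  ⟨fun h => h ξ rfl, fun h η e => by cases mem_singleton_iff.1 e; exact h⟩

abbrev X (L J : Type) := Pt (Lam L J) J

abbrev FX (L J : Type) : Filter (X L J) := GF (dat L J) univ

theorem coh_unbounded {S : Set L} {ξ : L} (h : ξ ∉ S) {Y : X L J → ℕ → Prop}
    (hY : ∀ i, Ms (up J S) fun G => Y G i) (hY' : ∀ᶠ G in FX L J, ∃ᶠ i in atTop, Y G i)
    {f : X L J → ℕ → ℕ} (hf : Ms (up J S) f) :
    ∀ᶠ G in FX L J, ∃ᶠ i in atTop, Y G i ∧ f G i < gen (coh ξ) G i := by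
  have : StepAt (dat L J) (up J S) (coh ξ) univ fun _ _ _ _ => True :=
    ⟨closed_up S, fun h' => h (coh_mem_up.1 h'), subset_univ _, trivial, fun j i v r hr => by
      rw [mem_singleton_iff.1 hr]
      exact ⟨top_in _, Eventually.of_forall fun _ _ => trivial⟩,
      fun F₀ i m p hp => ⟨p, hp, Le.refl _ _, m, le_rfl, fun j _ => ⟨top, rfl, Le.top _ _⟩⟩⟩
  exact this.unbounded hY hY' hf

variable [Infinite J]

/-- A family of functions depends on few coordinates. -/
theorem exists_supp {ι : Type} {f : ι → X L J → ℕ → ℕ} (hf : ∀ i, Ms univ (f i)) :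
    ∃ A : Set (Lam L J), #A ≤ max #ι #J ∧ (∀ a ∈ A, sub a ⊆ A) ∧ ∀ i, Ms A (f i) := by
  choose Z _ h2 h3 using fun i => exists_countable_supp_fun (hf i)
  have h0 : ℵ₀ ≤ max #ι #J := le_max_of_le_right (aleph0_le_mk J)
  refine ⟨⋃ i, ⋃ z : Z i, sub z.1, ?_, fun a ha => ?_, fun i => (h3 i).mono' fun z hz =>
    mem_iUnion.2 ⟨i, mem_iUnion.2 ⟨⟨z, hz⟩, mem_sub z⟩⟩⟩
  · refine (mk_iUnion_le _).trans ((mul_le_mul' (le_max_left _ _) (ciSup_le' fun i => ?_)).trans
      (mul_eq_self h0).le)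
    have := (h2 i).to_subtype
    exact (mk_iUnion_le _).trans ((mul_le_mul' (mk_le_aleph0.trans h0)
      (ciSup_le' fun z => (mk_sub _).trans (le_max_right _ _))).trans (mul_eq_self h0).le)
  · obtain ⟨i, ha⟩ := mem_iUnion.1 ha
    obtain ⟨z, ha⟩ := mem_iUnion.1 ha
    exact (sub_trans _ a ha).trans ((subset_iUnion (fun z : Z i => sub z.1) z).trans
      (subset_iUnion (fun i => ⋃ z : Z i, sub z.1) i))

theorem exists_leaves {ι : Type} {f : ι → X L J → ℕ → ℕ} (hf : ∀ i, Ms univ (f i)) :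
    ∃ S : Set L, #S ≤ max #ι #J ∧ ∀ i, Ms (up J S) (f i) := by
  obtain ⟨A, h1, h2, h3⟩ := exists_supp hf
  exact ⟨coh ⁻¹' A, (mk_preimage_of_injective _ _ fun _ _ h => coh.inj h).trans h1,
    fun i => (h3 i).mono' fun a ha ξ h => h2 a ha h⟩

/-- Any `#J` functions are dominated. -/
theorem exists_dom [Nonempty L] {f : J → X L J → ℕ → ℕ} (hf : ∀ i, Ms univ (f i)) :
    ∃ d : X L J → ℕ → ℕ, Ms univ d ∧ ∀ i, ∀ᶠ G in FX L J, ∀ᶠ n in atTop, f i G n ≤ d G n := by
  classical
  obtain ⟨A₀, h1, h2, h3⟩ := exists_supp hf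
  let a₀ : Lam L J := coh (Classical.arbitrary L)
  have h4 : #(insert a₀ A₀ : Set _) ≤ #J := mk_insert_le.trans ((add_le_add (by simpa using h1)
    (one_le_aleph0.trans (aleph0_le_mk J))).trans (add_eq_self (aleph0_le_mk J)).le)
  obtain ⟨ch, hch⟩ : ∃ ch : J → Lam L J, range ch = insert a₀ A₀ := by
    obtain ⟨e⟩ := h4
    have : Nonempty (insert a₀ A₀ : Set _) := ⟨⟨a₀, mem_insert _ _⟩⟩
    refine ⟨fun j => (Function.invFun e j).1, ?_⟩
    rw [show (fun j => (Function.invFun e j).1) = Subtype.val ∘ Function.invFun e from rfl,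
      (Function.invFun_surjective e.injective).range_comp, Subtype.range_coe]
  have hcl : Closed (dat L J) (range ch) := by
    rw [hch]
    refine closed_of_sub ?_
    rintro a (rfl | ha)
    · exact singleton_subset_iff.2 (mem_insert _ _)
    · exact (h2 a ha).trans (subset_insert _ _)
  have hms : ∀ i, Ms (range ch) (f i) := fun i => (h3 i).mono' (hch ▸ subset_insert _ _)
  let D : J → ℕ → ℕ → Set (Cond (Lam L J) J) := fun j i v =>
    {r | r.In (range ch) ∧ Fo (dat L J) (range ch) r fun G => f j G i ≤ v}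
  let a : Lam L J := node ch fun j i v =>
    (fun r : Cond (Lam L J) J => (fun x => r.s (ch x), fun x => r.F (ch x))) '' D j i v
  have hD : ∀ j i v r, r ∈ dat L J a j i v ↔ r ∈ D j i v := by
    refine fun j i v r => ⟨?_, fun h => ⟨h.1, r, h, rfl⟩⟩
    rintro ⟨h5, r', h6, h7⟩
    have : r' = r := by
      refine ext' (fun b => ?_) fun b => ?_ <;> by_cases hb : b ∈ range ch
      · obtain ⟨x, rfl⟩ := hb; exact congrFun (congrArg Prod.fst h7) x
      · rw [(h5 b hb).1, (h6.1 b hb).1]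
      · obtain ⟨x, rfl⟩ := hb; exact congrFun (congrArg Prod.snd h7) x
      · rw [(h5 b hb).2, (h6.1 b hb).2]
    exact this ▸ h6
  have hE : Ext (dat L J) (range ch) (dat L J) univ := ⟨hcl, subset_univ _, fun _ _ => rfl⟩
  have hs : StepAt (dat L J) (range ch) a univ fun j G i v => f j G i ≤ v := by
    refine ⟨hcl, fun ⟨x, hx⟩ => node_ne a _ _ x rfl hx, subset_univ _, trivial,
      fun j i v r hr => ⟨((hD ..).1 hr).1, hE.fo ((hD ..).1 hr).2⟩, fun F₀ i m p hp => ?_⟩
    let := Sig J (range ch)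
    obtain ⟨q, hq, h5, v, h6⟩ := Fo.decide_exists (N := dat L J)
      (φ := fun v G => m ≤ v ∧ ∀ j : F₀, f j G i ≤ v)
      (fun v => (Ms.const _).and (Ms.all fun j => by
        have := hms j; exact show Measurable _ by fun_prop)) hp
      (Eventually.of_forall fun G _ => ⟨max m (F₀.sup fun j => f j G i), le_max_left _ _,
        fun j => le_max_of_le_right (Finset.le_sup (f := fun j => f j G i) j.2)⟩)
    exact ⟨q, hq, h5, v, (let ⟨_, h⟩ := h6.ex hq; h.1),
      fun j hj => ⟨q, (hD ..).2 ⟨hq, h6.imp fun G hG => hG.2 ⟨j, hj⟩⟩, Le.refl _ _⟩⟩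
  exact ⟨gen a, ms_gen trivial, hs.allowed⟩

end Pool.Agent.Lib.MP_07d10b_lc
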